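import Mathlib

section

/-!
Helper file for MP_b6277e_co: the coefficients of the characteristic polynomial of a
4 x 4 matrix, written out, and the certificates.
-/

namespace Pool.Agent.Lib.MP_b6277e_co

variable {R : Type*} [CommRing R]

/-- sum of principal 1 x 1 minors -/
def e1 (A : Fin 4 → Fin 4 → R) : R :=
    (A 0 0) +
    (A 1 1) +
    (A 2 2) +
    (A 3 3)

/-- sum of principal 2 x 2 minors -/
def e2 (A : Fin 4 → Fin 4 → R) : R :=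
    (A 0 0 * A 1 1 - A 0 1 * A 1 0) +
    (A 0 0 * A 2 2 - A 0 2 * A 2 0) +
    (A 0 0 * A 3 3 - A 0 3 * A 3 0) +
    (A 1 1 * A 2 2 - A 1 2 * A 2 1) +
    (A 1 1 * A 3 3 - A 1 3 * A 3 1) +
    (A 2 2 * A 3 3 - A 2 3 * A 3 2)

/-- sum of principal 3 x 3 minors -/
def e3 (A : Fin 4 → Fin 4 → R) : R :=
    (A 0 0 * A 1 1 * A 2 2 - A 0 0 * A 1 2 * A 2 1 - A 0 1 * A 1 0 * A 2 2 + A 0 1 * A 1 2 * A 2 0 + A 0 2 * A 1 0 * A 2 1 - A 0 2 * A 1 1 * A 2 0) +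
    (A 0 0 * A 1 1 * A 3 3 - A 0 0 * A 1 3 * A 3 1 - A 0 1 * A 1 0 * A 3 3 + A 0 1 * A 1 3 * A 3 0 + A 0 3 * A 1 0 * A 3 1 - A 0 3 * A 1 1 * A 3 0) +
    (A 0 0 * A 2 2 * A 3 3 - A 0 0 * A 2 3 * A 3 2 - A 0 2 * A 2 0 * A 3 3 + A 0 2 * A 2 3 * A 3 0 + A 0 3 * A 2 0 * A 3 2 - A 0 3 * A 2 2 * A 3 0) +
    (A 1 1 * A 2 2 * A 3 3 - A 1 1 * A 2 3 * A 3 2 - A 1 2 * A 2 1 * A 3 3 + A 1 2 * A 2 3 * A 3 1 + A 1 3 * A 2 1 * A 3 2 - A 1 3 * A 2 2 * A 3 1)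

/-- determinant -/
def e4 (A : Fin 4 → Fin 4 → R) : R :=
    (A 0 0 * A 1 1 * A 2 2 * A 3 3 - A 0 0 * A 1 1 * A 2 3 * A 3 2 - A 0 0 * A 1 2 * A 2 1 * A 3 3 + A 0 0 * A 1 2 * A 2 3 * A 3 1 + A 0 0 * A 1 3 * A 2 1 * A 3 2 - A 0 0 * A 1 3 * A 2 2 * A 3 1 - A 0 1 * A 1 0 * A 2 2 * A 3 3 + A 0 1 * A 1 0 * A 2 3 * A 3 2 + A 0 1 * A 1 2 * A 2 0 * A 3 3 - A 0 1 * A 1 2 * A 2 3 * A 3 0 - A 0 1 * A 1 3 * A 2 0 * A 3 2 + A 0 1 * A 1 3 * A 2 2 * A 3 0 + A 0 2 * A 1 0 * A 2 1 * A 3 3 - A 0 2 * A 1 0 * A 2 3 * A 3 1 - A 0 2 * A 1 1 * A 2 0 * A 3 3 + A 0 2 * A 1 1 * A 2 3 * A 3 0 + A 0 2 * A 1 3 * A 2 0 * A 3 1 - A 0 2 * A 1 3 * A 2 1 * A 3 0 - A 0 3 * A 1 0 * A 2 1 * A 3 2 + A 0 3 * A 1 0 * A 2 2 * A 3 1 + A 0 3 * A 1 1 * A 2 0 * A 3 2 - A 0 3 * A 1 1 * A 2 2 * A 3 0 - A 0 3 * A 1 2 * A 2 0 * A 3 1 + A 0 3 * A 1 2 * A 2 1 * A 3 0)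

/-- all four -/
def Ev (A : Fin 4 → Fin 4 → R) : Fin 4 → R := ![e1 A, e2 A, e3 A, e4 A]

lemma det4 (M : Matrix (Fin 4) (Fin 4) R) : M.det =
    M 0 0 * (M 1 1 * (M 2 2 * M 3 3 - M 2 3 * M 3 2) - M 1 2 * (M 2 1 * M 3 3 - M 2 3 * M 3 1) +
      M 1 3 * (M 2 1 * M 3 2 - M 2 2 * M 3 1))
    - M 0 1 * (M 1 0 * (M 2 2 * M 3 3 - M 2 3 * M 3 2) - M 1 2 * (M 2 0 * M 3 3 - M 2 3 * M 3 0) +
      M 1 3 * (M 2 0 * M 3 2 - M 2 2 * M 3 0))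
    + M 0 2 * (M 1 0 * (M 2 1 * M 3 3 - M 2 3 * M 3 1) - M 1 1 * (M 2 0 * M 3 3 - M 2 3 * M 3 0) +
      M 1 3 * (M 2 0 * M 3 1 - M 2 1 * M 3 0))
    - M 0 3 * (M 1 0 * (M 2 1 * M 3 2 - M 2 2 * M 3 1) - M 1 1 * (M 2 0 * M 3 2 - M 2 2 * M 3 0) +
      M 1 2 * (M 2 0 * M 3 1 - M 2 1 * M 3 0)) := by
  rw [Matrix.det_succ_row_zero, Fin.sum_univ_four]
  simp only [Matrix.det_fin_three, Matrix.submatrix_apply]
  simp [Fin.succAbove, Fin.lt_def]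
  ring

open Polynomial in
lemma charpoly_four (A : Matrix (Fin 4) (Fin 4) R) :
    A.charpoly = X ^ 4 - C (e1 A) * X ^ 3 + C (e2 A) * X ^ 2 - C (e3 A) * X + C (e4 A) := by
  have hd : ∀ i, A.charmatrix i i = X - C (A i i) := fun i => Matrix.charmatrix_apply_eq A i
  have hn : ∀ i j, i ≠ j → A.charmatrix i j = - C (A i j) := fun i j h =>
    Matrix.charmatrix_apply_ne A i j h
  rw [Matrix.charpoly, det4, hd, hd, hd, hd,
    hn 0 1 (by decide), hn 0 2 (by decide), hn 0 3 (by decide),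
    hn 1 0 (by decide), hn 1 2 (by decide), hn 1 3 (by decide),
    hn 2 0 (by decide), hn 2 1 (by decide), hn 2 3 (by decide),
    hn 3 0 (by decide), hn 3 1 (by decide), hn 3 2 (by decide)]
  simp only [e1, e2, e3, e4, map_add, map_sub, map_mul]
  ring

/-- Scaling. -/
lemma Ev_smul (t : R) (A : Fin 4 → Fin 4 → R) :
    Ev (fun i j => t * A i j) = ![t * Ev A 0, t ^ 2 * Ev A 1, t ^ 3 * Ev A 2, t ^ 4 * Ev A 3] := by
  funext k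
  fin_cases k <;> simp [Ev, e1, e2, e3, e4] <;> ring

end Pool.Agent.Lib.MP_b6277e_co
end

section

/-!
Helper file for MP_b6277e_co: 64 integer nilpotent matrices, one for each choice of a signed
entry in the upper right block and a signed entry in the lower left block, together with four
positions whose Jacobian is nonsingular.
-/

namespace Pool.Agent.Lib.MP_b6277e_co

/-- certificate -/
def dat0 : List ℤ × List ℕ :=
  ([10, 4, -2, 0, -18, -6, 0, 0, -1, 0, 2, 2, 0, 0, -9, -6], [0, 1, 2, 5])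
/-- certificate -/
def dat1 : List ℤ × List ℕ :=
  ([3, 2, -1, 0, -2, -2, 0, 0, 1, 0, 1, 2, 0, 0, -2, -2], [0, 1, 2, 5])
/-- certificate -/
def dat2 : List ℤ × List ℕ :=
  ([3, 2, 1, 0, -2, -2, 0, 0, -1, 0, 1, 2, 0, 0, -2, -2], [0, 1, 2, 5])
/-- certificate -/
def dat3 : List ℤ × List ℕ :=
  ([10, 4, 2, 0, -18, -6, 0, 0, 1, 0, 2, 2, 0, 0, -9, -6], [0, 1, 2, 5])
/-- certificate -/
def dat4 : List ℤ × List ℕ :=
  ([18, 36, -18, 0, -36, -36, 0, 0, 0, -27, 30, 18, 0, 0, -2, -12], [0, 1, 2, 10])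
/-- certificate -/
def dat5 : List ℤ × List ℕ :=
  ([7, 7, -7, 0, -49, -28, 0, 0, 0, 9, 35, 28, 0, 0, -28, -14], [0, 1, 2, 10])
/-- certificate -/
def dat6 : List ℤ × List ℕ :=
  ([7, 7, 7, 0, -49, -28, 0, 0, 0, -9, 35, 28, 0, 0, -28, -14], [0, 1, 2, 10])
/-- certificate -/
def dat7 : List ℤ × List ℕ :=
  ([18, 36, 18, 0, -36, -36, 0, 0, 0, 27, 30, 18, 0, 0, -2, -12], [0, 1, 2, 10])
/-- certificate -/
def dat8 : List ℤ × List ℕ :=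
  ([5, 2, -1, 0, -8, -2, 0, 0, 0, 0, 1, 1, -9, 0, -7, -4], [0, 1, 2, 5])
/-- certificate -/
def dat9 : List ℤ × List ℕ :=
  ([22, 4, -16, 0, -1, -6, 0, 0, 0, 0, 4, 16, 32, 0, -29, -20], [0, 1, 2, 5])
/-- certificate -/
def dat10 : List ℤ × List ℕ :=
  ([22, 4, 16, 0, -1, -6, 0, 0, 0, 0, 4, 16, -32, 0, -29, -20], [0, 1, 2, 5])
/-- certificate -/
def dat11 : List ℤ × List ℕ :=
  ([5, 2, 1, 0, -8, -2, 0, 0, 0, 0, 1, 1, 9, 0, -7, -4], [0, 1, 2, 5])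
/-- certificate -/
def dat12 : List ℤ × List ℕ :=
  ([1, 2, -1, 0, -1, -1, 0, 0, 0, 0, 2, 1, 0, -1, -3, -2], [0, 1, 2, 10])
/-- certificate -/
def dat13 : List ℤ × List ℕ :=
  ([20, 10, -10, 0, -25, -10, 0, 0, 0, 0, 10, 10, 0, 1, -25, -20], [0, 1, 2, 10])
/-- certificate -/
def dat14 : List ℤ × List ℕ :=
  ([20, 10, 10, 0, -25, -10, 0, 0, 0, 0, 10, 10, 0, -1, -25, -20], [0, 1, 2, 10])
/-- certificate -/
def dat15 : List ℤ × List ℕ :=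
  ([1, 2, 1, 0, -1, -1, 0, 0, 0, 0, 2, 1, 0, 1, -3, -2], [0, 1, 2, 10])
/-- certificate -/
def dat16 : List ℤ × List ℕ :=
  ([30, 18, 0, -18, -2, -12, 0, 0, -27, 0, 18, 36, 0, 0, -36, -36], [0, 1, 3, 5])
/-- certificate -/
def dat17 : List ℤ × List ℕ :=
  ([35, 28, 0, -7, -28, -14, 0, 0, 9, 0, 7, 7, 0, 0, -49, -28], [0, 1, 3, 5])
/-- certificate -/
def dat18 : List ℤ × List ℕ :=
  ([35, 28, 0, 7, -28, -14, 0, 0, -9, 0, 7, 7, 0, 0, -49, -28], [0, 1, 3, 5])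
/-- certificate -/
def dat19 : List ℤ × List ℕ :=
  ([30, 18, 0, 18, -2, -12, 0, 0, 27, 0, 18, 36, 0, 0, -36, -36], [0, 1, 3, 5])
/-- certificate -/
def dat20 : List ℤ × List ℕ :=
  ([100, 50, 0, -50, -125, -50, 0, 0, 0, -2, 50, 50, 0, 0, -125, -100], [0, 1, 3, 10])
/-- certificate -/
def dat21 : List ℤ × List ℕ :=
  ([2, 1, 0, -1, -1, -2, 0, 0, 0, 3, 3, 4, 0, 0, -3, -3], [0, 1, 3, 10])
/-- certificate -/
def dat22 : List ℤ × List ℕ :=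
  ([2, 1, 0, 1, -1, -2, 0, 0, 0, -3, 3, 4, 0, 0, -3, -3], [0, 1, 3, 10])
/-- certificate -/
def dat23 : List ℤ × List ℕ :=
  ([100, 50, 0, 50, -125, -50, 0, 0, 0, 2, 50, 50, 0, 0, -125, -100], [0, 1, 3, 10])
/-- certificate -/
def dat24 : List ℤ × List ℕ :=
  ([2, 2, 0, -2, -4, -2, 0, 0, 0, 0, 2, 2, -1, 0, -1, -2], [0, 1, 3, 5])
/-- certificate -/
def dat25 : List ℤ × List ℕ :=
  ([1, 2, 0, -1, -4, -4, 0, 0, 0, 0, 4, 2, 1, 0, -4, -1], [0, 1, 3, 5])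
/-- certificate -/
def dat26 : List ℤ × List ℕ :=
  ([1, 2, 0, 1, -4, -4, 0, 0, 0, 0, 4, 2, -1, 0, -4, -1], [0, 1, 3, 5])
/-- certificate -/
def dat27 : List ℤ × List ℕ :=
  ([2, 2, 0, 2, -4, -2, 0, 0, 0, 0, 2, 2, 1, 0, -1, -2], [0, 1, 3, 5])
/-- certificate -/
def dat28 : List ℤ × List ℕ :=
  ([28, 7, 0, -7, -49, -7, 0, 0, 0, 0, 14, 28, 0, -9, -28, -35], [0, 1, 3, 11])
/-- certificate -/
def dat29 : List ℤ × List ℕ :=
  ([36, 36, 0, -18, -36, -18, 0, 0, 0, 0, 12, 18, 0, 27, -2, -30], [0, 1, 3, 10])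
/-- certificate -/
def dat30 : List ℤ × List ℕ :=
  ([36, 36, 0, 18, -36, -18, 0, 0, 0, 0, 12, 18, 0, -27, -2, -30], [0, 1, 3, 10])
/-- certificate -/
def dat31 : List ℤ × List ℕ :=
  ([28, 7, 0, 7, -49, -7, 0, 0, 0, 0, 14, 28, 0, 9, -28, -35], [0, 1, 3, 11])
/-- certificate -/
def dat32 : List ℤ × List ℕ :=
  ([1, 1, 0, 0, -7, -4, -1, 0, -9, 0, 5, 2, 0, 0, -8, -2], [0, 1, 4, 10])
/-- certificate -/
def dat33 : List ℤ × List ℕ :=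
  ([4, 16, 0, 0, -29, -20, -16, 0, 32, 0, 22, 4, 0, 0, -1, -6], [0, 1, 4, 10])
/-- certificate -/
def dat34 : List ℤ × List ℕ :=
  ([4, 16, 0, 0, -29, -20, 16, 0, -32, 0, 22, 4, 0, 0, -1, -6], [0, 1, 4, 10])
/-- certificate -/
def dat35 : List ℤ × List ℕ :=
  ([1, 1, 0, 0, -7, -4, 1, 0, 9, 0, 5, 2, 0, 0, -8, -2], [0, 1, 4, 10])
/-- certificate -/
def dat36 : List ℤ × List ℕ :=
  ([2, 2, 0, 0, -4, -2, -2, 0, 0, -1, 2, 2, 0, 0, -1, -2], [0, 1, 5, 6])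
/-- certificate -/
def dat37 : List ℤ × List ℕ :=
  ([4, 2, 0, 0, -4, -1, -1, 0, 0, 1, 1, 2, 0, 0, -4, -4], [0, 1, 5, 6])
/-- certificate -/
def dat38 : List ℤ × List ℕ :=
  ([4, 2, 0, 0, -4, -1, 1, 0, 0, -1, 1, 2, 0, 0, -4, -4], [0, 1, 5, 6])
/-- certificate -/
def dat39 : List ℤ × List ℕ :=
  ([2, 2, 0, 0, -4, -2, 2, 0, 0, 1, 2, 2, 0, 0, -1, -2], [0, 1, 5, 6])
/-- certificate -/
def dat40 : List ℤ × List ℕ :=
  ([4, 2, 0, 0, -5, -2, -1, 0, 0, 0, 2, 2, -1, 0, -5, -4], [0, 1, 4, 10])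
/-- certificate -/
def dat41 : List ℤ × List ℕ :=
  ([1, 1, 0, 0, -2, -1, -1, 0, 0, 0, 2, 1, 1, 0, -3, -2], [0, 1, 4, 10])
/-- certificate -/
def dat42 : List ℤ × List ℕ :=
  ([1, 1, 0, 0, -2, -1, 1, 0, 0, 0, 2, 1, -1, 0, -3, -2], [0, 1, 4, 10])
/-- certificate -/
def dat43 : List ℤ × List ℕ :=
  ([4, 2, 0, 0, -5, -2, 1, 0, 0, 0, 2, 2, 1, 0, -5, -4], [0, 1, 4, 10])
/-- certificate -/
def dat44 : List ℤ × List ℕ :=
  ([6, 9, 0, 0, -1, -15, -9, 0, 0, 0, 18, 9, 0, -27, -36, -9], [0, 1, 5, 6])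
/-- certificate -/
def dat45 : List ℤ × List ℕ :=
  ([2, 2, 0, 0, -8, -5, -1, 0, 0, 0, 4, 1, 0, 9, -7, -1], [0, 1, 5, 6])
/-- certificate -/
def dat46 : List ℤ × List ℕ :=
  ([2, 2, 0, 0, -8, -5, 1, 0, 0, 0, 4, 1, 0, -9, -7, -1], [0, 1, 5, 6])
/-- certificate -/
def dat47 : List ℤ × List ℕ :=
  ([6, 9, 0, 0, -1, -15, 9, 0, 0, 0, 18, 9, 0, 27, -36, -9], [0, 1, 5, 6])
/-- certificate -/
def dat48 : List ℤ × List ℕ :=
  ([2, 1, 0, 0, -3, -2, 0, -1, -1, 0, 1, 2, 0, 0, -1, -1], [0, 1, 4, 10])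
/-- certificate -/
def dat49 : List ℤ × List ℕ :=
  ([20, 10, 0, 0, -25, -10, 0, -10, 1, 0, 10, 10, 0, 0, -25, -20], [0, 1, 4, 10])
/-- certificate -/
def dat50 : List ℤ × List ℕ :=
  ([20, 10, 0, 0, -25, -10, 0, 10, -1, 0, 10, 10, 0, 0, -25, -20], [0, 1, 4, 10])
/-- certificate -/
def dat51 : List ℤ × List ℕ :=
  ([2, 1, 0, 0, -3, -2, 0, 1, 1, 0, 1, 2, 0, 0, -1, -1], [0, 1, 4, 10])
/-- certificate -/
def dat52 : List ℤ × List ℕ :=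
  ([14, 28, 0, 0, -28, -35, 0, -7, 0, -9, 28, 7, 0, 0, -49, -7], [0, 1, 5, 7])
/-- certificate -/
def dat53 : List ℤ × List ℕ :=
  ([12, 18, 0, 0, -2, -30, 0, -18, 0, 27, 36, 36, 0, 0, -36, -18], [0, 1, 5, 7])
/-- certificate -/
def dat54 : List ℤ × List ℕ :=
  ([12, 18, 0, 0, -2, -30, 0, 18, 0, -27, 36, 36, 0, 0, -36, -18], [0, 1, 5, 7])
/-- certificate -/
def dat55 : List ℤ × List ℕ :=
  ([14, 28, 0, 0, -28, -35, 0, 7, 0, 9, 28, 7, 0, 0, -49, -7], [0, 1, 5, 7])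
/-- certificate -/
def dat56 : List ℤ × List ℕ :=
  ([18, 9, 0, 0, -36, -9, 0, -9, 0, 0, 6, 9, -27, 0, -1, -15], [0, 1, 4, 10])
/-- certificate -/
def dat57 : List ℤ × List ℕ :=
  ([4, 1, 0, 0, -7, -1, 0, -1, 0, 0, 2, 2, 9, 0, -8, -5], [0, 1, 4, 11])
/-- certificate -/
def dat58 : List ℤ × List ℕ :=
  ([4, 1, 0, 0, -7, -1, 0, 1, 0, 0, 2, 2, -9, 0, -8, -5], [0, 1, 4, 11])
/-- certificate -/
def dat59 : List ℤ × List ℕ :=
  ([18, 9, 0, 0, -36, -9, 0, 9, 0, 0, 6, 9, 27, 0, -1, -15], [0, 1, 4, 10])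
/-- certificate -/
def dat60 : List ℤ × List ℕ :=
  ([6, 2, 0, 0, -9, -2, 0, -2, 0, 0, 6, 4, 0, -1, -18, -10], [0, 1, 5, 7])
/-- certificate -/
def dat61 : List ℤ × List ℕ :=
  ([2, 2, 0, 0, -2, -1, 0, -1, 0, 0, 2, 2, 0, 1, -2, -3], [0, 1, 5, 7])
/-- certificate -/
def dat62 : List ℤ × List ℕ :=
  ([2, 2, 0, 0, -2, -1, 0, 1, 0, 0, 2, 2, 0, -1, -2, -3], [0, 1, 5, 7])
/-- certificate -/
def dat63 : List ℤ × List ℕ :=
  ([6, 2, 0, 0, -9, -2, 0, 2, 0, 0, 6, 4, 0, 1, -18, -10], [0, 1, 5, 7])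

/-- the list of certificates: the entries of a 4 x 4 matrix row by row, and four positions -/
def certData : List (List ℤ × List ℕ) :=
  [dat0, dat1, dat2, dat3, dat4, dat5, dat6, dat7,
   dat8, dat9, dat10, dat11, dat12, dat13, dat14, dat15,
   dat16, dat17, dat18, dat19, dat20, dat21, dat22, dat23,
   dat24, dat25, dat26, dat27, dat28, dat29, dat30, dat31,
   dat32, dat33, dat34, dat35, dat36, dat37, dat38, dat39,
   dat40, dat41, dat42, dat43, dat44, dat45, dat46, dat47,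
   dat48, dat49, dat50, dat51, dat52, dat53, dat54, dat55,
   dat56, dat57, dat58, dat59, dat60, dat61, dat62, dat63]

/-- look-up -/
def getCert (i j k l : Fin 2) (a b : Bool) : List ℤ × List ℕ :=
  certData.getD (((((i.val * 2 + j.val) * 2 + k.val) * 2 + l.val) * 2 + a.toNat) * 2 + b.toNat)
    ([], [])

/-- matrix of a certificate -/
def certMat (c : List ℤ × List ℕ) : Fin 4 → Fin 4 → ℤ := fun p q => c.1.getD (4 * p.val + q.val) 0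

/-- positions of a certificate -/
def certPos (c : List ℤ × List ℕ) : Fin 4 → Fin 4 × Fin 4 :=
  fun m => (Fin.ofNat 4 (c.2.getD m.val 0 / 4), Fin.ofNat 4 (c.2.getD m.val 0))

/-- unit matrix at a position -/
def unitAt {R : Type*} [CommRing R] (p : Fin 4 × Fin 4) : Fin 4 → Fin 4 → R :=
  fun i j => if i = p.1 ∧ j = p.2 then 1 else 0

/-- Jacobian of the coefficients in the four chosen positions -/
def jac {R : Type*} [CommRing R] (M : Fin 4 → Fin 4 → R) (pos : Fin 4 → Fin 4 × Fin 4) :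
    Fin 4 → Fin 4 → R :=
  fun k m => Ev (fun i j => M i j + unitAt (pos m) i j) k - Ev M k

/-- nilpotent with a nonsingular Jacobian -/
def goodNil (M : Fin 4 → Fin 4 → ℤ) (pos : Fin 4 → Fin 4 × Fin 4) : Prop :=
  Ev M = 0 ∧ e4 (jac M pos) ≠ 0 ∧ ∀ m, M (pos m).1 (pos m).2 ≠ 0

instance (M : Fin 4 → Fin 4 → ℤ) (pos : Fin 4 → Fin 4 × Fin 4) : Decidable (goodNil M pos) := by
  unfold goodNil; infer_instance

/-- signs of `T₂ ⊕ T₂` plus one entry in each off-diagonal block -/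
def baseSign (i j k l : Fin 2) (a b : Bool) (p q : Fin 4) : ℤ :=
  if p.val < 2 ∧ q.val < 2 then (if p.val = 0 then 1 else -1)
  else if 2 ≤ p.val ∧ 2 ≤ q.val then (if p.val = 2 then 1 else -1)
  else if p.val = i.val ∧ q.val = 2 + j.val then (if a then 1 else -1)
  else if p.val = 2 + k.val ∧ q.val = l.val then (if b then 1 else -1)
  else 0

/-- signs are as required -/
def goodSign (M : Fin 4 → Fin 4 → ℤ) (i j k l : Fin 2) (a b : Bool) : Prop :=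
  ∀ p q, (M p q).sign = baseSign i j k l a b p q

instance (M : Fin 4 → Fin 4 → ℤ) (i j k l : Fin 2) (a b : Bool) :
    Decidable (goodSign M i j k l a b) := by
  unfold goodSign; infer_instance

theorem certs_sign : ∀ i j k l : Fin 2, ∀ a b : Bool,
    goodSign (certMat (getCert i j k l a b)) i j k l a b := by
  decide +kernel

theorem certs_nil : ∀ i j k l : Fin 2, ∀ a b : Bool,
    goodNil (certMat (getCert i j k l a b)) (certPos (getCert i j k l a b)) := by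
  decide +kernel

end Pool.Agent.Lib.MP_b6277e_co
end
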