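import Mathlib

/-!
Sign patterns and spectral arbitrariness: definitions for the hand-in of problem MP_b6277e_co.
-/

namespace Pool.Agent.Lib.MP_b6277e_co

/-- An `n × n` sign pattern: a matrix with entries in `{+, -, 0}` (Mathlib's `SignType`). -/
abbrev SignPattern (n : ℕ) : Type := Matrix (Fin n) (Fin n) SignType

/-- The real matrix `A` is a realization of the sign pattern `S`. -/
def IsRealization {n : ℕ} (A : Matrix (Fin n) (Fin n) ℝ) (S : SignPattern n) : Prop :=
  ∀ i j, SignType.sign (A i j) = S i j

/-- The sign pattern `S` is spectrally arbitrary: every monic real polynomial of degree `n` is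
the characteristic polynomial of some realization of `S`. -/
def SpectrallyArbitrary {n : ℕ} (S : SignPattern n) : Prop :=
  ∀ p : Polynomial ℝ, p.Monic → p.natDegree = n →
    ∃ A : Matrix (Fin n) (Fin n) ℝ, IsRealization A S ∧ A.charpoly = p

/-- `S` is a superpattern of `T`: it agrees with `T` wherever `T` is nonzero. -/
def IsSuperpattern {n : ℕ} (S T : SignPattern n) : Prop :=
  ∀ i j, T i j ≠ 0 → S i j = T i j

/-- The sign pattern `T₂ ⊕ T₂`. -/
def T2T2 : SignPattern 4 :=
  !![1, 1, 0, 0; -1, -1, 0, 0; 0, 0, 1, 1; 0, 0, -1, -1]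

end Pool.Agent.Lib.MP_b6277e_co
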