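import Mathlib
import Pool.Agent.Lib.MP_b6277e_co.Certs
import Pool.Agent.Lib.MP_b6277e_co.Defs

namespace Pool.Agent.Lib.MP_b6277e_co

open Filter Topology Polynomial

set_option maxHeartbeats 4000000 in
/-- Coefficients are affine in each entry. -/
lemma Ev_affine {R : Type*} [CommRing R] (A : Fin 4 → Fin 4 → R) (p : Fin 4 × Fin 4) (x : R)
    (k : Fin 4) :
    Ev (fun i j => A i j + x * unitAt p i j) k =
      Ev A k + x * (Ev (fun i j => A i j + unitAt p i j) k - Ev A k) := by
  obtain ⟨a, b⟩ := p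
  fin_cases a <;> fin_cases b <;> fin_cases k <;>
    (simp [Ev, unitAt, e1, e2, e3, e4]; try ring)

lemma Ev_contDiff {E : Type*} [NormedAddCommGroup E] [NormedSpace ℝ E] (f : E → Fin 4 → Fin 4 → ℝ)
    (hf : ∀ i j, ContDiff ℝ 1 fun x => f x i j) : ContDiff ℝ 1 fun x => Ev (f x) := by
  rw [contDiff_pi]
  intro k
  fin_cases k
  · simp only [Ev, e1]; simp; fun_prop (disch := exact hf _ _)
  · simp only [Ev, e2]; simp; fun_prop
  · simp only [Ev, e3]; simp; fun_prop
  · simp only [Ev, e4]; simp; fun_prop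

lemma cast_Ev (M : Fin 4 → Fin 4 → ℤ) (k : Fin 4) :
    Ev (fun i j => (M i j : ℝ)) k = ((Ev M k : ℤ) : ℝ) := by
  fin_cases k <;> simp [Ev, e1, e2, e3, e4]

lemma cast_unitAt (p : Fin 4 × Fin 4) (i j : Fin 4) :
    (unitAt p i j : ℝ) = ((unitAt p i j : ℤ) : ℝ) := by
  simp only [unitAt]; split_ifs <;> simp

lemma cast_jac (M : Fin 4 → Fin 4 → ℤ) (pos : Fin 4 → Fin 4 × Fin 4) (k m : Fin 4) :
    jac (fun i j => (M i j : ℝ)) pos k m = ((jac M pos k m : ℤ) : ℝ) := by
  unfold jac
  rw [cast_Ev]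
  have : (fun i j => (M i j : ℝ) + unitAt (pos m) i j) =
      fun i j => (((M i j + unitAt (pos m) i j : ℤ)) : ℝ) := by
    funext i j; push_cast; rw [cast_unitAt]
  rw [this, cast_Ev]
  push_cast; ring

/-- The perturbed matrix. -/
noncomputable def pert (A Y : Fin 4 → Fin 4 → ℝ) (pos : Fin 4 → Fin 4 × Fin 4)
    (w : (Fin 4 → ℝ) × ℝ) : Fin 4 → Fin 4 → ℝ :=
  fun i j => A i j + ∑ m, w.1 m * unitAt (pos m) i j + w.2 * Y i j

/-- the map whose openness is used -/
noncomputable def bigF (A Y : Fin 4 → Fin 4 → ℝ) (pos : Fin 4 → Fin 4 × Fin 4)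
    (w : (Fin 4 → ℝ) × ℝ) : (Fin 4 → ℝ) × ℝ := (Ev (pert A Y pos w), w.2)

lemma pert_contDiff (A Y : Fin 4 → Fin 4 → ℝ) (pos : Fin 4 → Fin 4 × Fin 4) (i j : Fin 4) :
    ContDiff ℝ 1 fun w => pert A Y pos w i j := by
  unfold pert
  apply ContDiff.add
  · apply ContDiff.add contDiff_const
    apply ContDiff.sum
    intro m _
    apply ContDiff.mul _ contDiff_const
    exact (contDiff_apply ℝ ℝ m).comp contDiff_fst
  · exact contDiff_snd.mul contDiff_const

lemma bigF_contDiff (A Y : Fin 4 → Fin 4 → ℝ) (pos : Fin 4 → Fin 4 × Fin 4) :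
    ContDiff ℝ 1 (bigF A Y pos) :=
  (Ev_contDiff _ (pert_contDiff A Y pos)).prodMk contDiff_snd

lemma bigF_open (A Y : Fin 4 → Fin 4 → ℝ) (pos : Fin 4 → Fin 4 × Fin 4)
    (hJ : e4 (jac A pos) ≠ 0) :
    map (bigF A Y pos) (𝓝 0) = 𝓝 (bigF A Y pos 0) := by
  have hstrict := ((bigF_contDiff A Y pos).contDiffAt (x := 0)).hasStrictFDerivAt (by norm_num)
  refine hstrict.map_nhds_eq_of_surj ?_
  set F' := fderiv ℝ (bigF A Y pos) 0 with hF'
  -- directional derivatives
  have hline : ∀ v : (Fin 4 → ℝ) × ℝ,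
      HasDerivAt (fun x : ℝ => bigF A Y pos (x • v)) (F' v) 0 := by
    intro v
    have h1 : HasFDerivAt (bigF A Y pos) F' ((0 : ℝ) • v) := by
      rw [zero_smul]; exact hstrict.hasFDerivAt
    have h2 : HasDerivAt (fun x : ℝ => x • v) v 0 := by
      simpa using (hasDerivAt_id (0 : ℝ)).smul_const v
    exact h1.comp_hasDerivAt 0 h2
  have hsnd : ∀ v, (F' v).2 = v.2 := by
    intro v
    have h1 : HasDerivAt (fun x : ℝ => (bigF A Y pos (x • v)).2) (F' v).2 0 := (hline v).snd
    have h2 : HasDerivAt (fun x : ℝ => (bigF A Y pos (x • v)).2) v.2 0 := by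
      have : (fun x : ℝ => (bigF A Y pos (x • v)).2) = fun x => x * v.2 := by
        funext x; simp [bigF]
      rw [this]
      simpa using (hasDerivAt_id (0 : ℝ)).mul_const v.2
    exact h1.unique h2
  have hcol : ∀ m : Fin 4, F' (Pi.single m 1, 0) = (fun k => jac A pos k m, 0) := by
    intro m
    have h1 := hline (Pi.single m 1, 0)
    have h2 : HasDerivAt (fun x : ℝ => bigF A Y pos (x • ((Pi.single m 1, 0) : (Fin 4 → ℝ) × ℝ)))
        (fun k => jac A pos k m, 0) 0 := by
      have e : (fun x : ℝ => bigF A Y pos (x • ((Pi.single m 1, 0) : (Fin 4 → ℝ) × ℝ))) =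
          fun x => (fun k => Ev A k + x * jac A pos k m, 0) := by
        funext x
        simp only [bigF]
        refine Prod.ext ?_ (by simp)
        funext k
        simp only
        have : pert A Y pos (x • ((Pi.single m 1, 0) : (Fin 4 → ℝ) × ℝ)) =
            fun i j => A i j + x * unitAt (pos m) i j := by
          funext i j
          simp only [pert, Prod.smul_mk, smul_zero, zero_mul, add_zero, add_right_inj]
          rw [Finset.sum_eq_single m]
          · simp
          · intro b _ hb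
            simp [hb]
          · intro h; exact absurd (Finset.mem_univ m) h
        rw [this, Ev_affine]
        rfl
      rw [e]
      apply HasDerivAt.prodMk
      · rw [hasDerivAt_pi]
        intro k
        simpa using ((hasDerivAt_id (0 : ℝ)).mul_const (jac A pos k m)).const_add (Ev A k)
      · exact hasDerivAt_const _ _
    exact h1.unique h2
  rw [LinearMap.range_eq_top]
  rintro ⟨w, r⟩
  set d := (F' (0, 1)).1 with hd
  have hd2 : F' (0, 1) = (d, 1) := Prod.ext rfl (hsnd _)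
  -- solve the linear system
  set J : Matrix (Fin 4) (Fin 4) ℝ := Matrix.of (jac A pos) with hJdef
  have hdet : IsUnit J.det := by
    rw [isUnit_iff_ne_zero, det4]
    intro h0
    apply hJ
    rw [← h0]
    simp only [e4, hJdef, Matrix.of_apply]
    ring
  set c : Fin 4 → ℝ := J⁻¹.mulVec (w - r • d) with hc
  have hJc : J.mulVec c = w - r • d := by
    rw [hc, Matrix.mulVec_mulVec, Matrix.mul_nonsing_inv _ hdet, Matrix.one_mulVec]
  refine ⟨∑ m, c m • ((Pi.single m 1, 0) : (Fin 4 → ℝ) × ℝ) + r • ((0, 1) : (Fin 4 → ℝ) × ℝ), ?_⟩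
  have : F' (∑ m, c m • ((Pi.single m 1, 0) : (Fin 4 → ℝ) × ℝ) + r • ((0, 1) : (Fin 4 → ℝ) × ℝ))
      = (w, r) := by
    rw [map_add, map_sum]
    simp only [map_smul, hcol, hd2]
    refine Prod.ext ?_ ?_
    · funext k
      have h1 := congrFun hJc k
      simp only [Matrix.mulVec, dotProduct, hJdef, Matrix.of_apply, Pi.sub_apply, Pi.smul_apply,
        smul_eq_mul] at h1
      simp only [Prod.fst_add, Prod.fst_sum, Prod.smul_mk, Pi.add_apply, Finset.sum_apply,
        Pi.smul_apply, smul_eq_mul]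
      have h2 : ∑ m, c m * jac A pos k m = ∑ m, jac A pos k m * c m :=
        Finset.sum_congr rfl fun m _ => mul_comm _ _
      rw [h2, h1]; ring
    · simp [Prod.snd_sum]
  exact this

end Pool.Agent.Lib.MP_b6277e_co
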