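import Mathlib
import Pool.Agent.Lib.MP_b6277e_co.Open

section

namespace Pool.Agent.Lib.MP_b6277e_co

open Filter Topology Polynomial

/-- A monic quartic in terms of its coefficients. -/
lemma monic_quartic (p : ℝ[X]) (hp : p.Monic) (hd : p.natDegree = 4) :
    p = X ^ 4 - C (-p.coeff 3) * X ^ 3 + C (p.coeff 2) * X ^ 2 - C (-p.coeff 1) * X
      + C (p.coeff 0) := by
  have h4 : p.coeff 4 = 1 := by rw [← hd]; exact hp.coeff_natDegree
  ext n
  rcases Nat.lt_or_ge n 5 with h | h
  · interval_cases n <;> simp [coeff_X, coeff_C, h4]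
  · rw [coeff_eq_zero_of_natDegree_lt (by omega)]
    have h0 : n ≠ 4 := by omega
    have h1 : n ≠ 3 := by omega
    have h2 : n ≠ 2 := by omega
    have h3 : n ≠ 1 := by omega
    have h5 : n ≠ 0 := by omega
    simp [coeff_X, coeff_C, coeff_X_pow, h0, h1, h2, h5, Ne.symm h3]

/-- To be spectrally arbitrary it suffices to realize all coefficient vectors. -/
lemma sap_of_coeffs (S : SignPattern 4)
    (h : ∀ c : Fin 4 → ℝ, ∃ A : Fin 4 → Fin 4 → ℝ, (∀ i j, SignType.sign (A i j) = S i j) ∧
      Ev A = c) : SpectrallyArbitrary S := by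
  intro p hp hd
  obtain ⟨A, hA, hE⟩ := h ![-p.coeff 3, p.coeff 2, -p.coeff 1, p.coeff 0]
  refine ⟨Matrix.of A, hA, ?_⟩
  rw [charpoly_four]
  have h0 : e1 A = -p.coeff 3 := congrFun hE 0
  have h1 : e2 A = p.coeff 2 := congrFun hE 1
  have h2 : e3 A = -p.coeff 1 := congrFun hE 2
  have h3 : e4 A = p.coeff 0 := congrFun hE 3
  have e : (Matrix.of A : Fin 4 → Fin 4 → ℝ) = A := rfl
  rw [e, h0, h1, h2, h3]
  exact (monic_quartic p hp hd).symm

/-- The nilpotent-Jacobian criterion, for superpatterns. -/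
theorem sap_of_cert (S : SignPattern 4) (M : Fin 4 → Fin 4 → ℤ) (pos : Fin 4 → Fin 4 × Fin 4)
    (hgood : goodNil M pos) (hsub : ∀ i j, M i j ≠ 0 → SignType.sign (M i j : ℝ) = S i j) :
    SpectrallyArbitrary S := by
  classical
  obtain ⟨hnil, hJ, hpos⟩ := hgood
  set A : Fin 4 → Fin 4 → ℝ := fun i j => (M i j : ℝ) with hA
  set Y : Fin 4 → Fin 4 → ℝ := fun i j => if M i j = 0 then ((S i j : ℤ) : ℝ) else 0 with hY
  have hJ' : e4 (jac A pos) ≠ 0 := by
    have : e4 (jac A pos) = ((e4 (jac M pos) : ℤ) : ℝ) := by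
      have h1 : jac A pos = fun k m => ((jac M pos k m : ℤ) : ℝ) := by
        funext k m; exact cast_jac M pos k m
      rw [h1]
      exact cast_Ev (jac M pos) 3
    rw [this]
    exact_mod_cast hJ
  have hEA : Ev A = 0 := by
    funext k
    rw [hA, cast_Ev, hnil]; simp
  have hopen := bigF_open A Y pos hJ'
  have hpert0 : pert A Y pos 0 = A := by
    funext i j; simp [pert]
  have hF0 : bigF A Y pos 0 = 0 := by
    simp only [bigF, hpert0, hEA]; rfl
  rw [hF0] at hopen
  -- neighbourhood on which the signs of the nonzero entries persist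
  have hU : ∀ᶠ w in 𝓝 (0 : (Fin 4 → ℝ) × ℝ), ∀ i j, M i j ≠ 0 →
      SignType.sign (pert A Y pos w i j) = S i j := by
    rw [eventually_all]; intro i
    rw [eventually_all]; intro j
    by_cases h : M i j = 0
    · exact Eventually.of_forall fun w h' => absurd h h'
    · have hc : ContinuousAt (fun w => pert A Y pos w i j) 0 :=
        (pert_contDiff A Y pos i j).continuous.continuousAt
      have hval : pert A Y pos 0 i j = M i j := by rw [hpert0]
      have hs := hsub i j h
      rcases lt_or_gt_of_ne (show (M i j : ℝ) ≠ 0 by exact_mod_cast h) with hlt | hgt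
      · have : ∀ᶠ w in 𝓝 (0 : (Fin 4 → ℝ) × ℝ), pert A Y pos w i j < 0 :=
          hc.eventually_lt_const (by show pert A Y pos 0 i j < 0; rw [hval]; exact hlt)
        filter_upwards [this] with w hw _
        rw [← hs, sign_neg hw, sign_neg hlt]
      · have : ∀ᶠ w in 𝓝 (0 : (Fin 4 → ℝ) × ℝ), 0 < pert A Y pos w i j :=
          hc.eventually_const_lt (by show 0 < pert A Y pos 0 i j; rw [hval]; exact hgt)
        filter_upwards [this] with w hw _
        rw [← hs, sign_pos hw, sign_pos hgt]
  have himg : (bigF A Y pos) '' {w | ∀ i j, M i j ≠ 0 →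
      SignType.sign (pert A Y pos w i j) = S i j} ∈ 𝓝 (0 : (Fin 4 → ℝ) × ℝ) := by
    rw [← hopen]
    exact image_mem_map hU
  apply sap_of_coeffs
  intro c
  -- path to zero
  have hpath : Tendsto (fun τ : ℝ => ((![τ * c 0, τ ^ 2 * c 1, τ ^ 3 * c 2, τ ^ 4 * c 3], τ) :
      (Fin 4 → ℝ) × ℝ)) (𝓝[>] 0) (𝓝 0) := by
    have hcont : Continuous (fun τ : ℝ => ((![τ * c 0, τ ^ 2 * c 1, τ ^ 3 * c 2, τ ^ 4 * c 3], τ) :
        (Fin 4 → ℝ) × ℝ)) := by
      refine Continuous.prodMk ?_ continuous_id
      refine continuous_pi fun k => ?_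
      fin_cases k <;> simp <;> fun_prop
    have h0 : ((![(0 : ℝ) * c 0, 0 ^ 2 * c 1, 0 ^ 3 * c 2, 0 ^ 4 * c 3], (0 : ℝ)) :
        (Fin 4 → ℝ) × ℝ) = 0 := by
      refine Prod.ext ?_ rfl
      funext k
      fin_cases k <;> simp
    have := hcont.tendsto 0
    simp only [h0] at this
    exact this.mono_left nhdsWithin_le_nhds
  have hev := (hpath.eventually himg).and self_mem_nhdsWithin
  obtain ⟨τ, ⟨w, hw, hwτ⟩, hτ⟩ := hev.exists
  have hτ0 : (0 : ℝ) < τ := hτ
  have hw2 : w.2 = τ := congrArg Prod.snd hwτ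
  have hw1 : Ev (pert A Y pos w) = ![τ * c 0, τ ^ 2 * c 1, τ ^ 3 * c 2, τ ^ 4 * c 3] :=
    congrArg Prod.fst hwτ
  refine ⟨fun i j => τ⁻¹ * pert A Y pos w i j, ?_, ?_⟩
  · intro i j
    rw [sign_mul, sign_pos (inv_pos.2 hτ0), one_mul]
    by_cases h : M i j = 0
    · have hval : pert A Y pos w i j = τ * ((S i j : ℤ) : ℝ) := by
        simp only [pert, hA, hY, h, if_true, hw2]
        have : ∑ m, w.1 m * unitAt (pos m) i j = 0 := by
          apply Finset.sum_eq_zero
          intro m _
          have : (unitAt (pos m) i j : ℝ) = 0 := by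
            simp only [unitAt]
            rw [if_neg]
            rintro ⟨h1, h2⟩
            apply hpos m
            rw [← h1, ← h2]; exact h
          rw [this, mul_zero]
        rw [this]; simp
      rw [hval, sign_mul, sign_pos hτ0, one_mul]
      cases S i j <;> simp
    · exact hw i j h
  · rw [Ev_smul, hw1]
    funext k
    have hne : τ ≠ 0 := hτ0.ne'
    fin_cases k <;> simp <;> field_simp

/-- Realizing a quadratic by `T₂`. -/
lemma quad_real (s d : ℝ) : ∃ a b c e : ℝ, 0 < a ∧ 0 < b ∧ c < 0 ∧ e < 0 ∧ a + e = s ∧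
    a * e - b * c = d := by
  refine ⟨1 + |s| + |d| + s, 1, -(d + (1 + |s| + |d| + s) * (1 + |s| + |d|)), -(1 + |s| + |d|),
    ?_, by norm_num, ?_, ?_, by ring, by ring⟩
  · have := neg_abs_le s
    have := abs_nonneg d
    linarith
  · have h1 := neg_abs_le s
    have h2 := abs_nonneg d
    have h3 := neg_abs_le d
    have h4 := abs_nonneg s
    have : 1 + |d| ≤ (1 + |s| + |d| + s) * (1 + |s| + |d|) := by
      calc 1 + |d| = (1 + |d|) * 1 := by ring
        _ ≤ (1 + |s| + |d| + s) * (1 + |s| + |d|) :=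
          mul_le_mul (by linarith) (by linarith) (by norm_num) (by linarith)
    linarith
  · have := abs_nonneg s
    have := abs_nonneg d
    linarith

lemma quartic_coeffs (a b c d : ℝ) :
    (X ^ 4 - C a * X ^ 3 + C b * X ^ 2 - C c * X + C d : ℝ[X]).coeff 3 = -a ∧
    (X ^ 4 - C a * X ^ 3 + C b * X ^ 2 - C c * X + C d : ℝ[X]).coeff 2 = b ∧
    (X ^ 4 - C a * X ^ 3 + C b * X ^ 2 - C c * X + C d : ℝ[X]).coeff 1 = -c ∧
    (X ^ 4 - C a * X ^ 3 + C b * X ^ 2 - C c * X + C d : ℝ[X]).coeff 0 = d := by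
  refine ⟨?_, ?_, ?_, ?_⟩ <;> simp [coeff_X, coeff_C]

/-- A real monic quartic factors into two monic quadratics. -/
lemma quartic_factor (c : Fin 4 → ℝ) : ∃ s d s' d' : ℝ, c 0 = s + s' ∧ c 1 = d + d' + s * s' ∧
    c 2 = s * d' + s' * d ∧ c 3 = d * d' := by
  have hdeg : IsMonicOfDegree (X ^ 4 - C (c 0) * X ^ 3 + C (c 1) * X ^ 2 - C (c 2) * X + C (c 3) :
      ℝ[X]) (2 + 2) := by
    constructor
    · compute_degree!
    · unfold Monic leadingCoeff
      have : (X ^ 4 - C (c 0) * X ^ 3 + C (c 1) * X ^ 2 - C (c 2) * X + C (c 3) :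
        ℝ[X]).natDegree = 4 := by compute_degree!
      rw [this]
      simp
  obtain ⟨f, g, hf, hg, hfg⟩ := hdeg.eq_isMonicOfDegree_two_mul_isMonicOfDegree
  obtain ⟨s, d, rfl⟩ := isMonicOfDegree_two_iff'.1 hf
  obtain ⟨s', d', rfl⟩ := isMonicOfDegree_two_iff'.1 hg
  have hexp : (X ^ 2 - C s * X + C d) * (X ^ 2 - C s' * X + C d') =
      X ^ 4 - C (s + s') * X ^ 3 + C (d + d' + s * s') * X ^ 2 - C (s * d' + s' * d) * X
        + C (d * d') := by
    simp only [map_add, map_mul]; ring
  rw [hexp] at hfg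
  obtain ⟨l3, l2, l1, l0⟩ := quartic_coeffs (c 0) (c 1) (c 2) (c 3)
  obtain ⟨r3, r2, r1, r0⟩ := quartic_coeffs (s + s') (d + d' + s * s') (s * d' + s' * d) (d * d')
  rw [hfg] at l3 l2 l1 l0
  exact ⟨s, d, s', d', by linarith, by linarith, by linarith, by linarith⟩

end Pool.Agent.Lib.MP_b6277e_co
end

section

namespace Pool.Agent.Lib.MP_b6277e_co

/-- index in the first block -/
def lo (i : Fin 2) : Fin 4 := ⟨i.val, by omega⟩
/-- index in the second block -/
def hi (i : Fin 2) : Fin 4 := ⟨2 + i.val, by omega⟩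

lemma sign_one {z : ℤ} (h : z.sign = 1) : SignType.sign (z : ℝ) = 1 := by
  have : 0 < z := Int.sign_eq_one_iff_pos.1 h
  exact sign_pos (by exact_mod_cast this)

lemma sign_neg_one {z : ℤ} (h : z.sign = -1) : SignType.sign (z : ℝ) = -1 := by
  have : z < 0 := Int.sign_eq_neg_one_iff_neg.1 h
  exact sign_neg (by exact_mod_cast this)

lemma sign_cast (s : SignType) : SignType.sign ((s : ℤ) : ℝ) = s := by
  cases s <;> simp

lemma block_zero_right (S : SignPattern 4) (hS : IsSuperpattern S T2T2)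
    (h02 : S 0 2 = 0) (h03 : S 0 3 = 0) (h12 : S 1 2 = 0) (h13 : S 1 3 = 0) :
    SpectrallyArbitrary S := by
  apply sap_of_coeffs
  intro c
  obtain ⟨s, d, s', d', q0, q1, q2, q3⟩ := quartic_factor c
  obtain ⟨a, b, u, e, ha, hb, hu, he, hae, hd⟩ := quad_real s d
  obtain ⟨a', b', u', e', ha', hb', hu', he', hae', hd'⟩ := quad_real s' d'
  refine ⟨![![a, b, 0, 0], ![u, e, 0, 0],
    ![((S 2 0 : ℤ) : ℝ), ((S 2 1 : ℤ) : ℝ), a', b'],
    ![((S 3 0 : ℤ) : ℝ), ((S 3 1 : ℤ) : ℝ), u', e']], ?_, ?_⟩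
  · have k00 : S 0 0 = 1 := hS 0 0 (by decide)
    have k01 : S 0 1 = 1 := hS 0 1 (by decide)
    have k10 : S 1 0 = -1 := hS 1 0 (by decide)
    have k11 : S 1 1 = -1 := hS 1 1 (by decide)
    have k22 : S 2 2 = 1 := hS 2 2 (by decide)
    have k23 : S 2 3 = 1 := hS 2 3 (by decide)
    have k32 : S 3 2 = -1 := hS 3 2 (by decide)
    have k33 : S 3 3 = -1 := hS 3 3 (by decide)
    intro i j
    fin_cases i <;> fin_cases j
    · show SignType.sign a = S 0 0; rw [k00, sign_pos ha]
    · show SignType.sign b = S 0 1; rw [k01, sign_pos hb]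
    · show SignType.sign (0 : ℝ) = S 0 2; rw [h02, sign_zero]
    · show SignType.sign (0 : ℝ) = S 0 3; rw [h03, sign_zero]
    · show SignType.sign u = S 1 0; rw [k10, sign_neg hu]
    · show SignType.sign e = S 1 1; rw [k11, sign_neg he]
    · show SignType.sign (0 : ℝ) = S 1 2; rw [h12, sign_zero]
    · show SignType.sign (0 : ℝ) = S 1 3; rw [h13, sign_zero]
    · exact sign_cast (S 2 0)
    · exact sign_cast (S 2 1)
    · show SignType.sign a' = S 2 2; rw [k22, sign_pos ha']
    · show SignType.sign b' = S 2 3; rw [k23, sign_pos hb']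
    · exact sign_cast (S 3 0)
    · exact sign_cast (S 3 1)
    · show SignType.sign u' = S 3 2; rw [k32, sign_neg hu']
    · show SignType.sign e' = S 3 3; rw [k33, sign_neg he']
  · funext k
    fin_cases k
    · simp [Ev, e1, q0]; linear_combination hae + hae'
    · simp [Ev, e2, q1]
      rw [← hae, ← hae', ← hd, ← hd']; ring
    · simp [Ev, e3, q2]
      rw [← hae, ← hae', ← hd, ← hd']; ring
    · simp [Ev, e4, q3]
      rw [← hd, ← hd']; ring

lemma block_zero_left (S : SignPattern 4) (hS : IsSuperpattern S T2T2)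
    (h20 : S 2 0 = 0) (h21 : S 2 1 = 0) (h30 : S 3 0 = 0) (h31 : S 3 1 = 0) :
    SpectrallyArbitrary S := by
  apply sap_of_coeffs
  intro c
  obtain ⟨s, d, s', d', q0, q1, q2, q3⟩ := quartic_factor c
  obtain ⟨a, b, u, e, ha, hb, hu, he, hae, hd⟩ := quad_real s d
  obtain ⟨a', b', u', e', ha', hb', hu', he', hae', hd'⟩ := quad_real s' d'
  refine ⟨![![a, b, ((S 0 2 : ℤ) : ℝ), ((S 0 3 : ℤ) : ℝ)], ![u, e, ((S 1 2 : ℤ) : ℝ),
    ((S 1 3 : ℤ) : ℝ)], ![0, 0, a', b'], ![0, 0, u', e']], ?_, ?_⟩
  · have k00 : S 0 0 = 1 := hS 0 0 (by decide)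
    have k01 : S 0 1 = 1 := hS 0 1 (by decide)
    have k10 : S 1 0 = -1 := hS 1 0 (by decide)
    have k11 : S 1 1 = -1 := hS 1 1 (by decide)
    have k22 : S 2 2 = 1 := hS 2 2 (by decide)
    have k23 : S 2 3 = 1 := hS 2 3 (by decide)
    have k32 : S 3 2 = -1 := hS 3 2 (by decide)
    have k33 : S 3 3 = -1 := hS 3 3 (by decide)
    intro i j
    fin_cases i <;> fin_cases j
    · show SignType.sign a = S 0 0; rw [k00, sign_pos ha]
    · show SignType.sign b = S 0 1; rw [k01, sign_pos hb]
    · exact sign_cast (S 0 2)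
    · exact sign_cast (S 0 3)
    · show SignType.sign u = S 1 0; rw [k10, sign_neg hu]
    · show SignType.sign e = S 1 1; rw [k11, sign_neg he]
    · exact sign_cast (S 1 2)
    · exact sign_cast (S 1 3)
    · show SignType.sign (0 : ℝ) = S 2 0; rw [h20, sign_zero]
    · show SignType.sign (0 : ℝ) = S 2 1; rw [h21, sign_zero]
    · show SignType.sign a' = S 2 2; rw [k22, sign_pos ha']
    · show SignType.sign b' = S 2 3; rw [k23, sign_pos hb']
    · show SignType.sign (0 : ℝ) = S 3 0; rw [h30, sign_zero]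
    · show SignType.sign (0 : ℝ) = S 3 1; rw [h31, sign_zero]
    · show SignType.sign u' = S 3 2; rw [k32, sign_neg hu']
    · show SignType.sign e' = S 3 3; rw [k33, sign_neg he']
  · funext k
    fin_cases k
    · simp [Ev, e1, q0]; linear_combination hae + hae'
    · simp [Ev, e2, q1]
      rw [← hae, ← hae', ← hd, ← hd']; ring
    · simp [Ev, e3, q2]
      rw [← hae, ← hae', ← hd, ← hd']; ring
    · simp [Ev, e4, q3]
      rw [← hd, ← hd']; ring

lemma ne_zero_cases {s : SignType} (h : s ≠ 0) :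
    s = if decide (s = 1) = true then 1 else -1 := by
  cases s <;> simp_all

lemma T2T2_ne (p q : Fin 4) (h : p.val < 2 ↔ q.val < 2) : T2T2 p q ≠ 0 := by
  fin_cases p <;> fin_cases q <;> first | decide | (simp at h)

lemma irreducible_case (S : SignPattern 4) (hS : IsSuperpattern S T2T2) (i j k l : Fin 2)
    (h1 : S (lo i) (hi j) ≠ 0) (h2 : S (hi k) (lo l) ≠ 0) : SpectrallyArbitrary S := by
  set a : Bool := decide (S (lo i) (hi j) = 1) with ha
  set b : Bool := decide (S (hi k) (lo l) = 1) with hb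
  have e1' := ne_zero_cases h1
  have e2' := ne_zero_cases h2
  rw [← ha] at e1'
  rw [← hb] at e2'
  refine sap_of_cert S _ _ (certs_nil i j k l a b) ?_
  intro p q hne
  have hs := certs_sign i j k l a b p q
  have hsign : ∀ s : SignType, baseSign i j k l a b p q = ((s : SignType) : ℤ) → s = S p q →
      SignType.sign ((certMat (getCert i j k l a b) p q : ℤ) : ℝ) = S p q := by
    intro s hb hsS
    rw [← hsS]
    rw [hb] at hs
    cases s with
    | zero => exact absurd (Int.sign_eq_zero_iff_zero.1 hs) hne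
    | neg => exact sign_neg_one hs
    | pos => exact sign_one hs
  by_cases hp : p.val < 2
  · by_cases hq : q.val < 2
    · -- first diagonal block
      apply hsign (T2T2 p q)
      · obtain ⟨p, hp4⟩ := p
        obtain ⟨q, hq4⟩ := q
        simp only at hp hq
        interval_cases p <;> interval_cases q <;> rfl
      · exact (hS p q (T2T2_ne p q (by omega))).symm
    · -- upper right block
      by_cases hpos : p.val = i.val ∧ q.val = 2 + j.val
      · have hp' : p = lo i := Fin.ext hpos.1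
        have hq' : q = hi j := Fin.ext hpos.2
        apply hsign (if a = true then 1 else -1)
        · unfold baseSign
          rw [if_neg (by omega), if_neg (by omega), if_pos hpos]
          split_ifs <;> rfl
        · rw [hp', hq']; exact e1'.symm
      · exfalso
        apply hne
        apply Int.sign_eq_zero_iff_zero.1
        rw [hs]
        unfold baseSign
        rw [if_neg (by omega), if_neg (by omega), if_neg hpos, if_neg (by omega)]
  · by_cases hq : q.val < 2
    · -- lower left block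
      by_cases hpos : p.val = 2 + k.val ∧ q.val = l.val
      · have hp' : p = hi k := Fin.ext hpos.1
        have hq' : q = lo l := Fin.ext hpos.2
        apply hsign (if b = true then 1 else -1)
        · unfold baseSign
          rw [if_neg (by omega), if_neg (by omega), if_neg (by omega), if_pos hpos]
          split_ifs <;> rfl
        · rw [hp', hq']; exact e2'.symm
      · exfalso
        apply hne
        apply Int.sign_eq_zero_iff_zero.1
        rw [hs]
        unfold baseSign
        rw [if_neg (by omega), if_neg (by omega), if_neg (by omega), if_neg hpos]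
    · -- second diagonal block
      apply hsign (T2T2 p q)
      · obtain ⟨p, hp4⟩ := p
        obtain ⟨q, hq4⟩ := q
        simp only at hp hq
        have : 2 ≤ p := by omega
        have : 2 ≤ q := by omega
        interval_cases p <;> interval_cases q <;> rfl
      · exact (hS p q (T2T2_ne p q (by omega))).symm

theorem all_superpatterns (S : SignPattern 4) (hS : IsSuperpattern S T2T2) :
    SpectrallyArbitrary S := by
  by_cases hB : ∀ i j : Fin 2, S (lo i) (hi j) = 0
  · exact block_zero_right S hS (hB 0 0) (hB 0 1) (hB 1 0) (hB 1 1)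
  · by_cases hC : ∀ k l : Fin 2, S (hi k) (lo l) = 0
    · exact block_zero_left S hS (hC 0 0) (hC 0 1) (hC 1 0) (hC 1 1)
    · push Not at hB hC
      obtain ⟨i, j, h1⟩ := hB
      obtain ⟨k, l, h2⟩ := hC
      exact irreducible_case S hS i j k l h1 h2

end Pool.Agent.Lib.MP_b6277e_co
end
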